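import Pool.Agent.H703R2.AB.Dom

/-!
# The derivative of two-run functionals
-/

set_option autoImplicit false
set_option linter.unusedSectionVars false

namespace Pool.Agent.H703R2.AC

open Finset Pool.Agent.H722R2.AA Pool.Agent.H746R2.AA Pool.Agent.H703R2.AA Pool.Agent.H703R2.AA.Pr
  Pool.Agent.H703R2.AB

section Pairs

variable {κ : Type*} [Fintype κ] [DecidableEq κ]

lemma PE_sg_left (r : ℝ) (j : κ) (G : (κ → ℤˣ) → (κ → ℤˣ) → ℝ)
    (hG : ∀ x y, G (fl j x) (fl j y) = G x y) : PE r (fun x y => sg x j * G x y) = 0 := by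
  have h := PE_fl r j (fun x y => sg x j * G x y)
  have e : PE r (fun x y => sg (fl j x) j * G (fl j x) (fl j y))
      = PE r (fun x y => -1 * (sg x j * G x y)) := by
    refine PE_congr fun x y => ?_
    rw [sg_fl_self, hG]; ring
  rw [e, PE_mul_left] at h
  linarith

lemma PE_sg_right (r : ℝ) (j : κ) (G : (κ → ℤˣ) → (κ → ℤˣ) → ℝ)
    (hG : ∀ x y, G (fl j x) (fl j y) = G x y) : PE r (fun x y => sg y j * G x y) = 0 := by
  have h := PE_fl r j (fun x y => sg y j * G x y)
  have e : PE r (fun x y => sg (fl j y) j * G (fl j x) (fl j y))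
      = PE r (fun x y => -1 * (sg y j * G x y)) := by
    refine PE_congr fun x y => ?_
    rw [sg_fl_self, hG]; ring
  rw [e, PE_mul_left] at h
  linarith

lemma PE_sg_sg (r : ℝ) (j : κ) (G : (κ → ℤˣ) → (κ → ℤˣ) → ℝ)
    (hG : ∀ x y, G x (fl j y) = G x y) :
    PE r (fun x y => sg x j * sg y j * G x y) = r * PE r G := by
  have key : ∀ x : κ → ℤˣ, ∑ y, Pool.Agent.H703R2.AA.wt r x y * ((sg x j * sg y j - r) * G x y) = 0 := by
    intro x
    have h2 : ∑ y, wt r x y * ((sg x j * sg y j - r) * G x y)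
        = (∑ y, (wt r x y * ((sg x j * sg y j - r) * G x y)
          + wt r x (fl j y) * ((sg x j * sg (fl j y) j - r) * G x (fl j y)))) / 2 := by
      rw [Finset.sum_add_distrib, sum_fl j (fun y => wt r x y * ((sg x j * sg y j - r) * G x y))]
      ring
    rw [h2]
    have h3 : ∀ y : κ → ℤˣ, wt r x y * ((sg x j * sg y j - r) * G x y)
          + wt r x (fl j y) * ((sg x j * sg (fl j y) j - r) * G x (fl j y)) = 0 := by
      intro y
      set C : ℝ := ∏ i ∈ Finset.univ.erase j, ((1 + r * (sg x i * sg y i)) / 4) with hC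
      have w1 : wt r x y = (1 + r * (sg x j * sg y j)) / 4 * C := by
        unfold Pool.Agent.H703R2.AA.wt
        exact (Finset.mul_prod_erase Finset.univ _ (Finset.mem_univ j)).symm
      have w2 : wt r x (fl j y) = (1 + r * (sg x j * sg (fl j y) j)) / 4 * C := by
        unfold Pool.Agent.H703R2.AA.wt
        rw [← Finset.mul_prod_erase Finset.univ _ (Finset.mem_univ j)]
        congr 1
        refine Finset.prod_congr rfl fun i hi => ?_
        rw [sg_fl_ne (Finset.ne_of_mem_erase hi)]
      rw [w1, w2, sg_fl_self, hG]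
      have hu : (sg x j * sg y j) * (sg x j * sg y j) = 1 := by
        have a := sg_sq x j
        have b := sg_sq y j
        calc (sg x j * sg y j) * (sg x j * sg y j) = (sg x j * sg x j) * (sg y j * sg y j) := by ring
          _ = 1 := by rw [a, b, one_mul]
      linear_combination (r * C * G x y / 2) * hu
    rw [Finset.sum_congr rfl fun y _ => h3 y]
    simp
  have h4 : PE r (fun x y => (sg x j * sg y j - r) * G x y) = 0 := by
    unfold PE
    exact Finset.sum_eq_zero fun x _ => key x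
  have h5 : PE r (fun x y => (sg x j * sg y j - r) * G x y)
      = PE r (fun x y => sg x j * sg y j * G x y) + -r * PE r G := by
    rw [← PE_mul_left, ← PE_add]
    exact PE_congr fun x y => by ring
  rw [h5] at h4
  linarith

/-- Averaging over a coordinate decreases the correlation of functions increasing in it. -/
lemma PE_avg_le {r : ℝ} (h0 : 0 ≤ r) (h1 : r ≤ 1) (j : κ) (α β α' β' : (κ → ℤˣ) → ℝ)
    (hα : ∀ x, α (fl j x) = α x) (hβ : ∀ x, β (fl j x) = β x)
    (hα' : ∀ x, α' (fl j x) = α' x) (hβ' : ∀ x, β' (fl j x) = β' x)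
    (p : ∀ x, 0 ≤ β x) (p' : ∀ x, 0 ≤ β' x) :
    PE r (fun x y => α x * α' y)
      ≤ PE r (fun x y => (α x + sg x j * β x) * (α' y + sg y j * β' y)) := by
  have e : PE r (fun x y => (α x + sg x j * β x) * (α' y + sg y j * β' y))
      = PE r (fun x y => α x * α' y) + PE r (fun x y => sg x j * (β x * α' y))
        + PE r (fun x y => sg y j * (α x * β' y)) + PE r (fun x y => sg x j * sg y j * (β x * β' y)) := by
    rw [← PE_add, ← PE_add, ← PE_add]
    exact PE_congr fun x y => by ring
  rw [e, PE_sg_left r j (fun x y => β x * α' y) (fun x y => by rw [hβ, hα']),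
    PE_sg_right r j (fun x y => α x * β' y) (fun x y => by rw [hα, hβ']),
    PE_sg_sg r j (fun x y => β x * β' y) (fun x y => by rw [hβ'])]
  have : 0 ≤ r * PE r (fun x y => β x * β' y) :=
    mul_nonneg h0 (PE_nonneg h0 h1 fun x y => mul_nonneg (p x) (p' y))
  linarith

lemma D_S {W : Type*} [Fintype W] (t : ℕ) (F : List W → (κ → ℤˣ) → ℝ) (j : κ) (x : κ → ℤˣ) :
    D (fun x => S t (fun h => F h x)) j x = S t (fun h => D (F h) j x) := by
  unfold D
  have : ∀ h : List W, (F h (Function.update x j 1) - F h (Function.update x j (-1))) / 2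
      = 1 / 2 * F h (Function.update x j 1) + -1 / 2 * F h (Function.update x j (-1)) := by
    intro h; ring
  simp_rw [this]
  rw [S_add, S_mul_left, S_mul_left]
  ring

lemma D_sum {τ : Type*} (s : Finset τ) (F : τ → (κ → ℤˣ) → ℝ) (j : κ) (x : κ → ℤˣ) :
    D (fun x => ∑ a ∈ s, F a x) j x = ∑ a ∈ s, D (F a) j x := by
  unfold D
  rw [← Finset.sum_sub_distrib, Finset.sum_div]

end Pairs

variable {κ ι W : Type*} [Fintype κ] [DecidableEq κ] [Fintype ι] [DecidableEq ι] [Fintype W]
variable (P : Pr κ ι W)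

/-- The probability of querying position `k` at time `t`. -/
noncomputable def pk (t : ℕ) (k : κ) (x : κ → ℤˣ) : ℝ := S t (fun h => qk P h k x)

/-- The collision probability of the steps `s`, `t` of two runs on correlated inputs. -/
noncomputable def Cst (s t : ℕ) (r : ℝ) : ℝ := PE r (fun x y => ∑ k, pk P s k x * pk P t k y)

lemma pk_nonneg (t : ℕ) (k : κ) (x : κ → ℤˣ) : 0 ≤ pk P t k x :=
  S_nonneg t fun h => qk_nonneg P h k x

lemma sum_pk_le (t : ℕ) (x : κ → ℤˣ) : ∑ k, pk P t k x ≤ 1 := by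
  unfold pk
  rw [← S_sum, ← P.S_nsq t x]
  exact S_mono t fun h => sum_qk_le P h x

/-- The total difference. -/
def zt (T : ℕ) (j : κ) (h : List W) (x : κ → ℤˣ) : ι → ℝ := ∑ s ∈ Finset.range T, P.z s j h x

lemma A_eq_zt (T : ℕ) (j : κ) (h : List W) (x : κ → ℤˣ) (hT : h.length ≤ T) :
    P.A h x = (1 / 2 : ℝ) • (P.A h x + P.A h (fl j x)) + sg x j • zt P T j h x := by
  have h1 := P.A_sub T j h x hT
  have h2 : sg x j • zt P T j h x = (1 / 2 : ℝ) • (P.A h x - P.A h (fl j x)) := by
    rw [h1, smul_smul]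
    congr 1
    ring
  rw [h2, ← smul_add]
  funext i
  simp only [Pi.smul_apply, Pi.add_apply, Pi.sub_apply, smul_eq_mul]
  ring

lemma zt_fl (T : ℕ) (j : κ) (h : List W) (x : κ → ℤˣ) (hT : h.length ≤ T) :
    zt P T j h (fl j x) = zt P T j h x := by
  have h1 := P.A_sub T j h x hT
  have h2 := P.A_sub T j h (fl j x) hT
  rw [fl_fl, sg_fl_self] at h2
  have hs := sg_sq x j
  have h3 : (2 * sg x j) • zt P T j h x = (2 * sg x j) • zt P T j h (fl j x) := by
    have : (2 * -sg x j) • ∑ s ∈ Finset.range T, P.z s j h (fl j x)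
        = -((2 * sg x j) • zt P T j h (fl j x)) := by
      rw [← neg_smul]
      congr 1
      ring
    rw [this] at h2
    calc (2 * sg x j) • zt P T j h x = P.A h x - P.A h (fl j x) := h1.symm
      _ = -(P.A h (fl j x) - P.A h x) := by abel
      _ = _ := by rw [h2, neg_neg]
  have h4 : (sg x j / 2) • ((2 * sg x j) • zt P T j h x)
      = (sg x j / 2) • ((2 * sg x j) • zt P T j h (fl j x)) := by rw [h3]
  rw [smul_smul, smul_smul] at h4
  have h5 : sg x j / 2 * (2 * sg x j) = 1 := by
    rw [← hs]; ring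
  rw [h5, one_smul, one_smul] at h4
  exact h4.symm

/-- The symmetrised state. -/
noncomputable def Ab (j : κ) (h : List W) (x : κ → ℤˣ) : ι → ℝ :=
  (1 / 2 : ℝ) • (P.A h x + P.A h (fl j x))

lemma Ab_fl (j : κ) (h : List W) (x : κ → ℤˣ) : Ab P j h (fl j x) = Ab P j h x := by
  unfold Ab
  rw [fl_fl, add_comm]

lemma D_test (T : ℕ) (j : κ) (h : List W) (x : κ → ℤˣ) (hT : h.length ≤ T) (m : ι → ι → ℝ) :
    D (fun x => nsq (mv m (P.A h x))) j x
      = 2 * dot (mv m (zt P T j h x)) (mv m (Ab P j h x)) := by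
  rw [D_fl, nsq_sub_nsq, ← mv_sub, ← mv_add, P.A_sub T j h x hT, mv_smul, dot_smul_left]
  have h1 : mv m (Ab P j h x) = (1 / 2 : ℝ) • mv m (P.A h x + P.A h (fl j x)) := by
    unfold Ab
    rw [mv_smul]
  rw [h1, dot_smul_right]
  have hs := sg_sq x j
  change sg x j * (2 * sg x j * dot (mv m (zt P T j h x)) _) / 2 = _
  linear_combination (dot (mv m (zt P T j h x)) (mv m (P.A h x + P.A h (fl j x)))) * hs

section Test

variable {K W' : Type*} [Fintype K] [Fintype W']
variable (b : List W → W' → K → ι → ι → ℝ)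

/-- The probability of the outcome `k` of a test at time `t`. -/
noncomputable def tk (t : ℕ) (k : K) (x : κ → ℤˣ) : ℝ :=
  S t (fun h => ∑ w, nsq (mv (b h w k) (P.A h x)))

/-- The coincidence probability of two tests. -/
noncomputable def Ft (s t : ℕ) (r : ℝ) : ℝ := PE r (fun x y => ∑ k, tk P b s k x * tk P b t k y)

lemma tk_nonneg (t : ℕ) (k : K) (x : κ → ℤˣ) : 0 ≤ tk P b t k x :=
  S_nonneg t fun _ => Finset.sum_nonneg fun _ _ => nsq_nonneg _

lemma Ft_nonneg {r : ℝ} (h0 : 0 ≤ r) (h1 : r ≤ 1) (s t : ℕ) : 0 ≤ Ft P b s t r :=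
  PE_nonneg h0 h1 fun x y => Finset.sum_nonneg fun k _ =>
    mul_nonneg (tk_nonneg P b s k x) (tk_nonneg P b t k y)

lemma Ft_deriv (s t : ℕ) (r : ℝ) :
    HasDerivAt (Ft P b s t)
      (∑ k, ∑ j, PE r (fun x y => D (tk P b s k) j x * D (tk P b t k) j y)) r := by
  have e : Ft P b s t = fun r => ∑ k, PE r (fun x y => tk P b s k x * tk P b t k y) := by
    funext r
    unfold Ft
    rw [PE_sum]
  rw [e]
  exact HasDerivAt.fun_sum fun k _ => hasDerivAt_PE (tk P b s k) (tk P b t k) r

lemma D_tk (s : ℕ) (k : K) (j : κ) (x : κ → ℤˣ) :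
    D (tk P b s k) j x
      = S s (fun h => ∑ w, 2 * dot (mv (b h w k) (zt P s j h x)) (mv (b h w k) (Ab P j h x))) := by
  unfold tk
  rw [D_S s (fun h x => ∑ w, nsq (mv (b h w k) (P.A h x)))]
  refine S_congr' s fun h hh => ?_
  rw [D_sum]
  exact Finset.sum_congr rfl fun w _ => D_test P s j h x hh.le _

/-- Contraction on the left factor. -/
lemma contr_left (hb : ∀ h u, ∑ k, ∑ w, nsq (mv (b h w k) u) ≤ nsq u) (h : List W)
    (u v : κ → ι → ℝ) :
    ∑ k, ∑ w, nsq (∑ j, tn (mv (b h w k) (u j)) (v j)) ≤ nsq (∑ j, tn (u j) (v j)) := by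
  simp_rw [nsq_sum_tn]
  have e : ∀ k w i, nsq (∑ j, v j i • mv (b h w k) (u j)) = nsq (mv (b h w k) (∑ j, v j i • u j)) := by
    intro k w i
    rw [mv_sum]
    congr 1
    exact Finset.sum_congr rfl fun j _ => (mv_smul _ _ _).symm
  simp_rw [e]
  calc ∑ k, ∑ w, ∑ i, nsq (mv (b h w k) (∑ j, v j i • u j))
      = ∑ k, ∑ i, ∑ w, nsq (mv (b h w k) (∑ j, v j i • u j)) := by
        refine Finset.sum_congr rfl fun k _ => ?_
        rw [Finset.sum_comm]
    _ = ∑ i, ∑ k, ∑ w, nsq (mv (b h w k) (∑ j, v j i • u j)) := by rw [Finset.sum_comm]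
    _ ≤ _ := Finset.sum_le_sum fun i _ => hb h _

lemma contr_right (hb : ∀ h u, ∑ k, ∑ w, nsq (mv (b h w k) u) ≤ nsq u) (h : List W)
    (u v : κ → ι → ℝ) :
    ∑ k, ∑ w, nsq (∑ j, tn (u j) (mv (b h w k) (v j))) ≤ nsq (∑ j, tn (u j) (v j)) := by
  rw [nsq_sum_tn_comm u v]
  refine le_trans (le_of_eq ?_) (contr_left b hb h v u)
  refine Finset.sum_congr rfl fun k _ => Finset.sum_congr rfl fun w _ => ?_
  rw [nsq_sum_tn_comm]

lemma contr_both (hb : ∀ h u, ∑ k, ∑ w, nsq (mv (b h w k) u) ≤ nsq u) (h h' : List W)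
    (u v : κ → ι → ℝ) :
    ∑ k, ∑ w, ∑ w', nsq (∑ j, tn (mv (b h w k) (u j)) (mv (b h' w' k) (v j)))
      ≤ nsq (∑ j, tn (u j) (v j)) := by
  calc ∑ k, ∑ w, ∑ w', nsq (∑ j, tn (mv (b h w k) (u j)) (mv (b h' w' k) (v j)))
      ≤ ∑ k, ∑ w, nsq (∑ j, tn (mv (b h w k) (u j)) (v j)) := by
        refine Finset.sum_le_sum fun k _ => Finset.sum_le_sum fun w _ => ?_
        refine le_trans ?_ (contr_right b hb h' (fun j => mv (b h w k) (u j)) v)
        exact Finset.single_le_sum
          (f := fun l => ∑ w', nsq (∑ j, tn (mv (b h w k) (u j)) (mv (b h' w' l) (v j))))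
          (fun l _ => Finset.sum_nonneg fun w' _ => nsq_nonneg _) (Finset.mem_univ k)
    _ ≤ _ := contr_left b hb h u v

end Test

/-- Peeling without indicators. -/
lemma peel0 (s t s' t' : ℕ) (hs : s' < s) (ht : t' < t) (x y : κ → ℤˣ) :
    SS s t (fun h h' => nsq (∑ j, tn (P.z s' j h x) (P.z t' j h' y)))
      ≤ SS (s' + 1) (t' + 1) (fun h h' => nsq (∑ j, tn (P.z s' j h x) (P.z t' j h' y))) := by
  unfold SS
  have h1 : ∀ a : List W,
      S t (fun b => nsq (∑ j, tn (P.z s' j a x) (P.z t' j b y)))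
      ≤ S (t' + 1) (fun b => nsq (∑ j, tn (P.z s' j a x) (P.z t' j b y))) := by
    intro a
    refine S_peel (t' + 1) t ht _ fun b hb => ?_
    have e : ∀ w j, P.z t' j (w :: b) y = mv (P.Q b w y) (P.z t' j b y) := fun w j =>
      P.z_cons t' j b w y (by omega)
    simp_rw [e]
    exact (P.N_tn_right b y (fun j => P.z s' j a x) (fun j => P.z t' j b y)).le
  refine (S_mono s h1).trans ?_
  refine S_peel (s' + 1) s hs _ fun a ha => ?_
  rw [← S_sum]
  refine S_mono _ fun b => ?_
  have e : ∀ w j, P.z s' j (w :: a) x = mv (P.Q a w x) (P.z s' j a x) := fun w j =>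
    P.z_cons s' j a w x (by omega)
  simp_rw [e]
  exact (P.N_tn_left a x (fun j => P.z s' j a x) (fun j => P.z t' j b y)).le

lemma level_le (r : ℝ) (h0 : 0 ≤ r) (h1 : r ≤ 1) (s t s' t' : ℕ) (hs : s' < s) (ht : t' < t) :
    PE r (fun x y => SS s t (fun h h' => nsq (∑ j, tn (P.z s' j h x) (P.z t' j h' y))))
      ≤ Cst P s' t' r := by
  have e1 : Cst P s' t' r = PE r (fun x y => ∑ j, pk P s' j (fl j x) * pk P t' j (fl j y)) := by
    unfold Cst
    rw [PE_sum, PE_sum]
    refine Finset.sum_congr rfl fun j _ => ?_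
    exact (PE_fl r j (fun x y => pk P s' j x * pk P t' j y)).symm
  rw [e1]
  refine PE_mono h0 h1 fun x y => ?_
  refine (peel0 P s t s' t' hs ht x y).trans (le_of_eq ?_)
  rw [SS_succ]
  have e2 : ∀ h h' : List W, h.length = s' → h'.length = t' →
      ∑ w, ∑ w', nsq (∑ j, tn (P.z s' j (w :: h) x) (P.z t' j (w' :: h') y))
        = ∑ j, qk P h j (fl j x) * qk P h' j (fl j y) := by
    intro h h' hh hh'
    unfold qk
    rw [← two_run P h h' (fun j => P.A h (fl j x)) (fun j => P.A h' (fl j y))]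
    refine Finset.sum_congr rfl fun w _ => Finset.sum_congr rfl fun w' _ => ?_
    simp_rw [P.z_top s' _ h w x hh, P.z_top t' _ h' w' y hh']
  rw [SS_congr' s' t' e2, SS_sum]
  refine Finset.sum_congr rfl fun j _ => ?_
  rw [SS_mul s' t' (fun h => qk P h j (fl j x)) (fun h' => qk P h' j (fl j y))]
  rfl

section Test2

variable {K W' : Type*} [Fintype K] [Fintype W']
variable (b : List W → W' → K → ι → ι → ℝ)

/-- The main differential inequality. -/
theorem deriv_le (hb : ∀ h u, ∑ k, ∑ w, nsq (mv (b h w k) u) ≤ nsq u) {r : ℝ} (h0 : 0 ≤ r)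
    (h1 : r ≤ 1) (s t : ℕ) (c : ℕ → ℕ → ℝ) (hc : ∀ s' t', 0 < c s' t') :
    ∑ k, ∑ j, PE r (fun x y => D (tk P b s k) j x * D (tk P b t k) j y)
      ≤ 2 * ∑ s' ∈ Finset.range s, ∑ t' ∈ Finset.range t,
          (c s' t' * Cst P s' t' r + Ft P b s t r / c s' t') := by
  -- step 1: expand
  have step1 : ∀ (k : K) (j : κ), PE r (fun x y => D (tk P b s k) j x * D (tk P b t k) j y)
      ≤ 4 * PE r (fun x y => SS s t (fun h h' => ∑ w, ∑ w',
          dot (mv (b h w k) (zt P s j h x)) (mv (b h w k) (P.A h x))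
          * dot (mv (b h' w' k) (zt P t j h' y)) (mv (b h' w' k) (P.A h' y)))) := by
    intro k j
    have e1 : PE r (fun x y => D (tk P b s k) j x * D (tk P b t k) j y)
        = 4 * SS s t (fun h h' => ∑ w, ∑ w', PE r (fun x y =>
          dot (mv (b h w k) (zt P s j h x)) (mv (b h w k) (Ab P j h x))
          * dot (mv (b h' w' k) (zt P t j h' y)) (mv (b h' w' k) (Ab P j h' y)))) := by
      have e2 : ∀ x y : κ → ℤˣ, D (tk P b s k) j x * D (tk P b t k) j y
          = SS s t (fun h h' => 4 * ∑ w, ∑ w',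
          dot (mv (b h w k) (zt P s j h x)) (mv (b h w k) (Ab P j h x))
          * dot (mv (b h' w' k) (zt P t j h' y)) (mv (b h' w' k) (Ab P j h' y))) := by
        intro x y
        rw [D_tk, D_tk, ← SS_mul]
        refine SS_congr' s t fun h h' _ _ => ?_
        rw [Finset.sum_mul_sum, Finset.mul_sum]
        refine Finset.sum_congr rfl fun w _ => ?_
        rw [Finset.mul_sum]
        refine Finset.sum_congr rfl fun w' _ => by ring
      rw [PE_congr e2, PE_SS, ← SS_mul_left]
      refine SS_congr' s t fun h h' _ _ => ?_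
      rw [PE_mul_left, PE_sum]
      congr 1
      refine Finset.sum_congr rfl fun w _ => ?_
      rw [PE_sum]
    rw [e1, PE_SS]
    refine mul_le_mul_of_nonneg_left ?_ (by norm_num)
    refine SS_mono' s t fun h h' hh hh' => ?_
    rw [PE_sum]
    refine Finset.sum_le_sum fun w _ => ?_
    rw [PE_sum]
    refine Finset.sum_le_sum fun w' _ => ?_
    have e3 : ∀ (T : ℕ) (h : List W) (m : ι → ι → ℝ), h.length = T → ∀ x : κ → ℤˣ,
        dot (mv m (zt P T j h x)) (mv m (P.A h x))
          = dot (mv m (zt P T j h x)) (mv m (Ab P j h x)) + sg x j * nsq (mv m (zt P T j h x)) := by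
      intro T h m hT x
      have h2 : mv m (P.A h x) = mv m (Ab P j h x) + sg x j • mv m (zt P T j h x) := by
        rw [← mv_smul, ← mv_add]
        congr 1
        exact A_eq_zt P T j h x hT.le
      rw [h2, dot_add_right, dot_smul_right, dot_self]
    simp_rw [e3 s h (b h w k) hh, e3 t h' (b h' w' k) hh']
    refine PE_avg_le h0 h1 j
      (fun x => dot (mv (b h w k) (zt P s j h x)) (mv (b h w k) (Ab P j h x)))
      (fun x => nsq (mv (b h w k) (zt P s j h x)))
      (fun y => dot (mv (b h' w' k) (zt P t j h' y)) (mv (b h' w' k) (Ab P j h' y)))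
      (fun y => nsq (mv (b h' w' k) (zt P t j h' y))) ?_ ?_ ?_ ?_ ?_ ?_
    · intro x
      rw [zt_fl P s j h x hh.le, Ab_fl]
    · intro x
      rw [zt_fl P s j h x hh.le]
    · intro x
      rw [zt_fl P t j h' x hh'.le, Ab_fl]
    · intro x
      rw [zt_fl P t j h' x hh'.le]
    · intro x; exact nsq_nonneg _
    · intro x; exact nsq_nonneg _
  -- step 2: sum over `j` and expand `zt`
  have step2 : ∀ x y : κ → ℤˣ, ∑ k, ∑ j, SS s t (fun h h' => ∑ w, ∑ w',
          dot (mv (b h w k) (zt P s j h x)) (mv (b h w k) (P.A h x))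
          * dot (mv (b h' w' k) (zt P t j h' y)) (mv (b h' w' k) (P.A h' y)))
      = ∑ s' ∈ Finset.range s, ∑ t' ∈ Finset.range t, SS s t (fun h h' => ∑ k, ∑ w, ∑ w',
          dot (∑ j, tn (mv (b h w k) (P.z s' j h x)) (mv (b h' w' k) (P.z t' j h' y)))
            (tn (mv (b h w k) (P.A h x)) (mv (b h' w' k) (P.A h' y)))) := by
    intro x y
    simp_rw [← SS_sum]
    refine SS_congr' s t fun h h' _ _ => ?_
    have e4 : ∀ (k : K) (w w' : W'), ∑ s' ∈ Finset.range s, ∑ t' ∈ Finset.range t,
          dot (∑ j, tn (mv (b h w k) (P.z s' j h x)) (mv (b h' w' k) (P.z t' j h' y)))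
            (tn (mv (b h w k) (P.A h x)) (mv (b h' w' k) (P.A h' y)))
        = ∑ j, dot (mv (b h w k) (zt P s j h x)) (mv (b h w k) (P.A h x))
          * dot (mv (b h' w' k) (zt P t j h' y)) (mv (b h' w' k) (P.A h' y)) := by
      intro k w w'
      have e5 : ∀ s' t', dot (∑ j, tn (mv (b h w k) (P.z s' j h x)) (mv (b h' w' k) (P.z t' j h' y)))
            (tn (mv (b h w k) (P.A h x)) (mv (b h' w' k) (P.A h' y)))
          = ∑ j, dot (mv (b h w k) (P.z s' j h x)) (mv (b h w k) (P.A h x))
            * dot (mv (b h' w' k) (P.z t' j h' y)) (mv (b h' w' k) (P.A h' y)) := by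
        intro s' t'
        rw [dot_sum_left]
        exact Finset.sum_congr rfl fun j _ => dot_tn _ _ _ _
      simp_rw [e5]
      calc ∑ s' ∈ Finset.range s, ∑ t' ∈ Finset.range t, ∑ j,
            dot (mv (b h w k) (P.z s' j h x)) (mv (b h w k) (P.A h x))
            * dot (mv (b h' w' k) (P.z t' j h' y)) (mv (b h' w' k) (P.A h' y))
          = ∑ s' ∈ Finset.range s, ∑ j, ∑ t' ∈ Finset.range t,
            dot (mv (b h w k) (P.z s' j h x)) (mv (b h w k) (P.A h x))
            * dot (mv (b h' w' k) (P.z t' j h' y)) (mv (b h' w' k) (P.A h' y)) := by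
            refine Finset.sum_congr rfl fun s' _ => ?_
            rw [Finset.sum_comm]
        _ = ∑ j, ∑ s' ∈ Finset.range s, ∑ t' ∈ Finset.range t,
            dot (mv (b h w k) (P.z s' j h x)) (mv (b h w k) (P.A h x))
            * dot (mv (b h' w' k) (P.z t' j h' y)) (mv (b h' w' k) (P.A h' y)) := by
            rw [Finset.sum_comm]
        _ = _ := by
            refine Finset.sum_congr rfl fun j _ => ?_
            rw [← Finset.sum_mul_sum, ← dot_sum_left, ← dot_sum_left, ← mv_sum, ← mv_sum]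
            rfl
    calc ∑ k, ∑ j, ∑ w, ∑ w',
          dot (mv (b h w k) (zt P s j h x)) (mv (b h w k) (P.A h x))
          * dot (mv (b h' w' k) (zt P t j h' y)) (mv (b h' w' k) (P.A h' y))
        = ∑ k, ∑ w, ∑ w', ∑ j, dot (mv (b h w k) (zt P s j h x)) (mv (b h w k) (P.A h x))
          * dot (mv (b h' w' k) (zt P t j h' y)) (mv (b h' w' k) (P.A h' y)) := by
          refine Finset.sum_congr rfl fun k _ => ?_
          rw [Finset.sum_comm]
          refine Finset.sum_congr rfl fun w _ => ?_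
          rw [Finset.sum_comm]
      _ = ∑ k, ∑ w, ∑ w', ∑ s' ∈ Finset.range s, ∑ t' ∈ Finset.range t,
          dot (∑ j, tn (mv (b h w k) (P.z s' j h x)) (mv (b h' w' k) (P.z t' j h' y)))
            (tn (mv (b h w k) (P.A h x)) (mv (b h' w' k) (P.A h' y))) := by
          refine Finset.sum_congr rfl fun k _ => Finset.sum_congr rfl fun w _ =>
            Finset.sum_congr rfl fun w' _ => (e4 k w w').symm
      _ = _ := by
          calc ∑ k, ∑ w, ∑ w', ∑ s' ∈ Finset.range s, ∑ t' ∈ Finset.range t,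
                dot (∑ j, tn (mv (b h w k) (P.z s' j h x)) (mv (b h' w' k) (P.z t' j h' y)))
                (tn (mv (b h w k) (P.A h x)) (mv (b h' w' k) (P.A h' y)))
              = ∑ k, ∑ w, ∑ s' ∈ Finset.range s, ∑ w', ∑ t' ∈ Finset.range t,
                dot (∑ j, tn (mv (b h w k) (P.z s' j h x)) (mv (b h' w' k) (P.z t' j h' y)))
                (tn (mv (b h w k) (P.A h x)) (mv (b h' w' k) (P.A h' y))) := by
                refine Finset.sum_congr rfl fun k _ => Finset.sum_congr rfl fun w _ => ?_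
                rw [Finset.sum_comm]
            _ = ∑ k, ∑ s' ∈ Finset.range s, ∑ w, ∑ w', ∑ t' ∈ Finset.range t,
                dot (∑ j, tn (mv (b h w k) (P.z s' j h x)) (mv (b h' w' k) (P.z t' j h' y)))
                (tn (mv (b h w k) (P.A h x)) (mv (b h' w' k) (P.A h' y))) := by
                refine Finset.sum_congr rfl fun k _ => ?_
                rw [Finset.sum_comm]
            _ = ∑ s' ∈ Finset.range s, ∑ k, ∑ w, ∑ w', ∑ t' ∈ Finset.range t,
                dot (∑ j, tn (mv (b h w k) (P.z s' j h x)) (mv (b h' w' k) (P.z t' j h' y)))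
                (tn (mv (b h w k) (P.A h x)) (mv (b h' w' k) (P.A h' y))) := by
                rw [Finset.sum_comm]
            _ = _ := by
                refine Finset.sum_congr rfl fun s' _ => ?_
                calc ∑ k, ∑ w, ∑ w', ∑ t' ∈ Finset.range t,
                      dot (∑ j, tn (mv (b h w k) (P.z s' j h x)) (mv (b h' w' k) (P.z t' j h' y)))
                      (tn (mv (b h w k) (P.A h x)) (mv (b h' w' k) (P.A h' y)))
                    = ∑ k, ∑ w, ∑ t' ∈ Finset.range t, ∑ w',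
                      dot (∑ j, tn (mv (b h w k) (P.z s' j h x)) (mv (b h' w' k) (P.z t' j h' y)))
                      (tn (mv (b h w k) (P.A h x)) (mv (b h' w' k) (P.A h' y))) := by
                      refine Finset.sum_congr rfl fun k _ => Finset.sum_congr rfl fun w _ => ?_
                      rw [Finset.sum_comm]
                  _ = ∑ k, ∑ t' ∈ Finset.range t, ∑ w, ∑ w',
                      dot (∑ j, tn (mv (b h w k) (P.z s' j h x)) (mv (b h' w' k) (P.z t' j h' y)))
                      (tn (mv (b h w k) (P.A h x)) (mv (b h' w' k) (P.A h' y))) := by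
                      refine Finset.sum_congr rfl fun k _ => ?_
                      rw [Finset.sum_comm]
                  _ = _ := by rw [Finset.sum_comm]
  -- step 3: the bound for each pair
  have step3 : ∀ s' ∈ Finset.range s, ∀ t' ∈ Finset.range t,
      PE r (fun x y => SS s t (fun h h' => ∑ k, ∑ w, ∑ w',
          dot (∑ j, tn (mv (b h w k) (P.z s' j h x)) (mv (b h' w' k) (P.z t' j h' y)))
            (tn (mv (b h w k) (P.A h x)) (mv (b h' w' k) (P.A h' y)))))
        ≤ (c s' t' * Cst P s' t' r + Ft P b s t r / c s' t') / 2 := by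
    intro s' hs' t' ht'
    rw [Finset.mem_range] at hs' ht'
    have hcc := hc s' t'
    have hpt : ∀ x y : κ → ℤˣ, SS s t (fun h h' => ∑ k, ∑ w, ∑ w',
          dot (∑ j, tn (mv (b h w k) (P.z s' j h x)) (mv (b h' w' k) (P.z t' j h' y)))
            (tn (mv (b h w k) (P.A h x)) (mv (b h' w' k) (P.A h' y))))
        ≤ (c s' t' / 2) * SS s t (fun h h' => nsq (∑ j, tn (P.z s' j h x) (P.z t' j h' y)))
          + (1 / (2 * c s' t')) * ∑ k, tk P b s k x * tk P b t k y := by
      intro x y
      have e6 : ∑ k, tk P b s k x * tk P b t k y = SS s t (fun h h' => ∑ k, ∑ w, ∑ w',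
          nsq (tn (mv (b h w k) (P.A h x)) (mv (b h' w' k) (P.A h' y)))) := by
        rw [SS_sum]
        refine Finset.sum_congr rfl fun k _ => ?_
        unfold tk
        rw [← SS_mul]
        refine SS_congr' s t fun h h' _ _ => ?_
        rw [Finset.sum_mul_sum]
        refine Finset.sum_congr rfl fun w _ => Finset.sum_congr rfl fun w' _ => ?_
        rw [nsq_tn]
      rw [e6, ← SS_mul_left, ← SS_mul_left, ← SS_add]
      refine SS_mono s t fun h h' => ?_
      calc ∑ k, ∑ w, ∑ w',
          dot (∑ j, tn (mv (b h w k) (P.z s' j h x)) (mv (b h' w' k) (P.z t' j h' y)))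
            (tn (mv (b h w k) (P.A h x)) (mv (b h' w' k) (P.A h' y)))
          ≤ ∑ k, ∑ w, ∑ w', ((c s' t' / 2)
              * nsq (∑ j, tn (mv (b h w k) (P.z s' j h x)) (mv (b h' w' k) (P.z t' j h' y)))
            + (1 / (2 * c s' t'))
              * nsq (tn (mv (b h w k) (P.A h x)) (mv (b h' w' k) (P.A h' y)))) := by
            refine Finset.sum_le_sum fun k _ => Finset.sum_le_sum fun w _ =>
              Finset.sum_le_sum fun w' _ => ?_
            have := (le_abs_self _).trans (abs_dot_le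
              (∑ j, tn (mv (b h w k) (P.z s' j h x)) (mv (b h' w' k) (P.z t' j h' y)))
              (tn (mv (b h w k) (P.A h x)) (mv (b h' w' k) (P.A h' y))) (c s' t') hcc)
            refine this.trans (le_of_eq ?_)
            field_simp
        _ = (c s' t' / 2) * (∑ k, ∑ w, ∑ w',
              nsq (∑ j, tn (mv (b h w k) (P.z s' j h x)) (mv (b h' w' k) (P.z t' j h' y))))
            + (1 / (2 * c s' t')) * ∑ k, ∑ w, ∑ w',
              nsq (tn (mv (b h w k) (P.A h x)) (mv (b h' w' k) (P.A h' y))) := by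
            simp_rw [Finset.sum_add_distrib, ← Finset.mul_sum]
        _ ≤ _ := by
            have := mul_le_mul_of_nonneg_left
              (contr_both b hb h h' (fun j => P.z s' j h x) (fun j => P.z t' j h' y))
              (by positivity : 0 ≤ c s' t' / 2)
            linarith
    refine (PE_mono h0 h1 hpt).trans ?_
    rw [PE_add, PE_mul_left, PE_mul_left]
    have h3 := level_le P r h0 h1 s t s' t' hs' ht'
    have h4 := mul_le_mul_of_nonneg_left h3 (by positivity : 0 ≤ c s' t' / 2)
    have e7 : 1 / (2 * c s' t') * PE r (fun x y => ∑ k, tk P b s k x * tk P b t k y)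
        = Ft P b s t r / c s' t' / 2 := by
      unfold Ft; field_simp
    rw [e7]
    linarith
  calc ∑ k, ∑ j, PE r (fun x y => D (tk P b s k) j x * D (tk P b t k) j y)
      ≤ ∑ k, ∑ j, 4 * PE r (fun x y => SS s t (fun h h' => ∑ w, ∑ w',
          dot (mv (b h w k) (zt P s j h x)) (mv (b h w k) (P.A h x))
          * dot (mv (b h' w' k) (zt P t j h' y)) (mv (b h' w' k) (P.A h' y)))) :=
        Finset.sum_le_sum fun k _ => Finset.sum_le_sum fun j _ => step1 k j
    _ = 4 * PE r (fun x y => ∑ k, ∑ j, SS s t (fun h h' => ∑ w, ∑ w',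
          dot (mv (b h w k) (zt P s j h x)) (mv (b h w k) (P.A h x))
          * dot (mv (b h' w' k) (zt P t j h' y)) (mv (b h' w' k) (P.A h' y)))) := by
        rw [PE_sum, Finset.mul_sum]
        refine Finset.sum_congr rfl fun k _ => ?_
        rw [PE_sum, Finset.mul_sum]
    _ = 4 * ∑ s' ∈ Finset.range s, ∑ t' ∈ Finset.range t, PE r (fun x y => SS s t (fun h h' =>
          ∑ k, ∑ w, ∑ w',
          dot (∑ j, tn (mv (b h w k) (P.z s' j h x)) (mv (b h' w' k) (P.z t' j h' y)))
            (tn (mv (b h w k) (P.A h x)) (mv (b h' w' k) (P.A h' y))))) := by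
        rw [PE_congr step2, PE_sum]
        congr 1
        refine Finset.sum_congr rfl fun s' _ => ?_
        rw [PE_sum]
    _ ≤ 4 * ∑ s' ∈ Finset.range s, ∑ t' ∈ Finset.range t,
          (c s' t' * Cst P s' t' r + Ft P b s t r / c s' t') / 2 := by
        refine mul_le_mul_of_nonneg_left ?_ (by norm_num)
        exact Finset.sum_le_sum fun s' hs' => Finset.sum_le_sum fun t' ht' => step3 s' hs' t' ht'
    _ = _ := by
        simp_rw [← Finset.sum_div]
        ring

end Test2

end Pool.Agent.H703R2.AC
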