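import Pool.Agent.H703R2.AC.Osss

/-!
# All quantum algorithms: the numbers
-/

set_option autoImplicit false
set_option linter.unusedSectionVars false

namespace Pool.Agent.H703R2.AC

open Finset Pool.Agent.H722R2.AA Pool.Agent.H746R2.AA Pool.Agent.H703R2.AA Pool.Agent.H703R2.AA.Pr
  Pool.Agent.H703R2.AB

variable {κ ι W : Type*} [Fintype κ] [DecidableEq κ] [Fintype ι] [DecidableEq ι] [Fintype W]
variable (P : Pr κ ι W)

lemma cube_root (T : ℕ) (hT : 1 ≤ T) :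
    0 < (T : ℝ) ^ (1 / 3 : ℝ) ∧ ((T : ℝ) ^ (1 / 3 : ℝ)) ^ 3 = T ∧
      ((T : ℝ) ^ (1 / 3 : ℝ)) ^ 2 = (T : ℝ) ^ (2 / 3 : ℝ) := by
  have hT0 : (0 : ℝ) < T := by exact_mod_cast hT
  refine ⟨Real.rpow_pos_of_pos hT0 _, ?_, ?_⟩
  · rw [← Real.rpow_natCast, ← Real.rpow_mul hT0.le]
    norm_num
  · rw [← Real.rpow_natCast, ← Real.rpow_mul hT0.le]
    norm_num

/-- The light lemma for the threshold used. -/
lemma light_num (T : ℕ) (hT : 1 ≤ T) (V : ℝ) (hV : 0 < V) (g : List W → ℝ) (hg0 : ∀ a, 0 ≤ g a)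
    (hg1 : ∀ a, g a ≤ 1) (P : Pr κ ι W)
    (hl : ∀ t < T, ∀ k, mq P t k ≤ V ^ 2 / (64 * Real.exp (8 * (T : ℝ) ^ (2 / 3 : ℝ)))) :
    Cov (P.out T g) (P.out T g) ≤ V / 4 := by
  obtain ⟨hL, hL3, hL2⟩ := cube_root T hT
  set L : ℝ := (T : ℝ) ^ (1 / 3 : ℝ) with hLdef
  set E : ℝ := Real.exp (4 * L ^ 2) with hE
  have hE0 : 0 < E := Real.exp_pos _
  have hEE : Real.exp (8 * (T : ℝ) ^ (2 / 3 : ℝ)) = E ^ 2 := by
    rw [hE, ← Real.exp_nat_mul, hL2]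
    congr 1
    push_cast
    ring
  have hth : 0 < V / (8 * E) := by positivity
  have h := light P (V / (8 * E)) L hth hL T hL3 (fun t ht k => by
    refine (hl t ht k).trans (le_of_eq ?_)
    rw [hEE]
    field_simp
    norm_num) g hg0 hg1
  refine h.trans (le_of_eq ?_)
  rw [← hE]
  field_simp
  norm_num

/-- The Aaronson-Ambainis inequality for all processes, with a subexponential bound. -/
theorem infl (T : ℕ) (hT : 1 ≤ T) (g : List W → ℝ) (hg0 : ∀ a, 0 ≤ g a)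
    (hg1 : ∀ a, g a ≤ 1) (hV : 0 < Cov (P.out T g) (P.out T g)) :
    ∃ l, (Cov (P.out T g) (P.out T g) ^ 3
      / (64 * T * Real.exp (8 * (T : ℝ) ^ (2 / 3 : ℝ)))) ^ 2 ≤ Inf (P.out T g) l := by
  set V := Cov (P.out T g) (P.out T g) with hVdef
  have hT0 : (0 : ℝ) < T := by exact_mod_cast hT
  obtain ⟨l, hl⟩ := main P (V ^ 2 / (64 * Real.exp (8 * (T : ℝ) ^ (2 / 3 : ℝ)))) (by positivity)
    T hT g hg0 hg1 hV (fun P' h => light_num T hT V hV g hg0 hg1 P' h)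
  refine ⟨l, le_trans (le_of_eq ?_) hl⟩
  rw [← hVdef]
  congr 1
  field_simp

/-- The bit fixing form for all processes, with a subexponential bound. -/
theorem bits (T : ℕ) (hT : 1 ≤ T) (g : List W → ℝ) (hg0 : ∀ a, 0 ≤ g a)
    (hg1 : ∀ a, g a ≤ 1) (hV : 0 < Cov (P.out T g) (P.out T g)) :
    ∃ (S : Finset κ) (a : κ → ℤˣ),
      (S.card : ℝ) ≤ 256 * T * Real.exp (8 * (T : ℝ) ^ (2 / 3 : ℝ))
        / Cov (P.out T g) (P.out T g) ^ 3 ∧
      Cov (P.out T g) (P.out T g) / 2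
        ≤ (Ex (fun x => P.out T g (S.piecewise a x)) - Ex (P.out T g)) ^ 2 := by
  set V := Cov (P.out T g) (P.out T g) with hVdef
  have hT0 : (0 : ℝ) < T := by exact_mod_cast hT
  obtain ⟨S, a, hS, ha⟩ := fix P (V ^ 2 / (64 * Real.exp (8 * (T : ℝ) ^ (2 / 3 : ℝ))))
    (by positivity) T hT g hg0 hg1 hV (fun P' h => light_num T hT V hV g hg0 hg1 P' h)
  refine ⟨S, a, hS.trans (le_of_eq ?_), ha⟩
  rw [← hVdef]
  field_simp
  norm_num

end Pool.Agent.H703R2.AC
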