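import Pool.Agent.H703R2.AC.Deriv
import Pool.Agent.H703R2.AA.Osss

/-!
# The variance of a light quantum algorithm
-/

set_option autoImplicit false
set_option linter.unusedSectionVars false

namespace Pool.Agent.H703R2.AC

open Finset Pool.Agent.H722R2.AA Pool.Agent.H746R2.AA Pool.Agent.H703R2.AA Pool.Agent.H703R2.AA.Pr
  Pool.Agent.H703R2.AB

/-- A comparison lemma. -/
lemma compare (h b h' b' : ℝ → ℝ) (hh : ∀ r, HasDerivAt h (h' r) r)
    (hb : ∀ r, HasDerivAt b (b' r) r) (hb0 : ∀ r, 0 < b r)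
    (hle : ∀ r, 0 ≤ r → r ≤ 1 → h' r ≤ b' r * (b r + h r / b r)) (h0 : h 0 ≤ b 0 ^ 2)
    (r : ℝ) (hr0 : 0 ≤ r) (hr1 : r ≤ 1) : h r ≤ b r ^ 2 := by
  set u : ℝ → ℝ := fun r => h r / b r - b r with hu
  have hud : ∀ r, HasDerivAt u ((h' r * b r - h r * b' r) / b r ^ 2 - b' r) r := fun r =>
    ((hh r).div (hb r) (hb0 r).ne').sub (hb r)
  have hanti : AntitoneOn u (Set.Icc 0 1) := by
    refine antitoneOn_of_deriv_nonpos (convex_Icc 0 1)
      (fun x _ => (hud x).continuousAt.continuousWithinAt)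
      (fun x _ => (hud x).differentiableAt.differentiableWithinAt) ?_
    intro x hx
    rw [interior_Icc] at hx
    rw [(hud x).deriv]
    have h1 := hle x hx.1.le hx.2.le
    have hbx := hb0 x
    have h2 : (h' x * b x - h x * b' x) / b x ^ 2
        ≤ (b' x * (b x + h x / b x) * b x - h x * b' x) / b x ^ 2 := by
      refine div_le_div_of_nonneg_right ?_ (by positivity)
      have := mul_le_mul_of_nonneg_right h1 hbx.le
      linarith
    have h3 : (b' x * (b x + h x / b x) * b x - h x * b' x) / b x ^ 2 = b' x := by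
      field_simp
      ring
    linarith
  have h1 := hanti (Set.left_mem_Icc.2 zero_le_one) (Set.mem_Icc.2 ⟨hr0, hr1⟩) hr0
  have h2 : u 0 ≤ 0 := by
    simp only [hu]
    have := hb0 0
    rw [sub_nonpos, div_le_iff₀ this, ← sq]
    exact h0
  have h3 : u r ≤ 0 := h1.trans h2
  simp only [hu] at h3
  have hbr := hb0 r
  rw [sub_nonpos, div_le_iff₀ hbr, ← sq] at h3
  exact h3

lemma sum_exp_le (lam : ℝ) (hl : 0 < lam) (s : ℕ) :
    ∑ s' ∈ Finset.range s, Real.exp (lam * s') ≤ Real.exp (lam * s) / lam := by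
  induction s with
  | zero => simp; positivity
  | succ s ih =>
    rw [Finset.sum_range_succ]
    have h1 : Real.exp (lam * ((s + 1 : ℕ) : ℝ)) = Real.exp (lam * s) * Real.exp lam := by
      rw [← Real.exp_add]; congr 1; push_cast; ring
    rw [h1]
    have h2 := Real.add_one_le_exp lam
    have h3 : Real.exp (lam * s) / lam + Real.exp (lam * s) ≤ Real.exp (lam * s) * Real.exp lam / lam := by
      rw [div_add' _ _ _ hl.ne', div_le_div_iff_of_pos_right hl]
      have := mul_le_mul_of_nonneg_left h2 (Real.exp_pos (lam * s)).le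
      linarith
    linarith

/-- The supersolution. -/
noncomputable def bs (th lam : ℝ) (s t : ℕ) (r : ℝ) : ℝ :=
  th * Real.exp (lam * s + lam * t + 2 / lam ^ 2 * r)

lemma bs_pos (th lam : ℝ) (hth : 0 < th) (s t : ℕ) (r : ℝ) : 0 < bs th lam s t r := by
  unfold bs; positivity

lemma bs_deriv (th lam : ℝ) (s t : ℕ) (r : ℝ) :
    HasDerivAt (bs th lam s t) (2 / lam ^ 2 * bs th lam s t r) r := by
  unfold bs
  have h1 : HasDerivAt (fun r : ℝ => lam * s + lam * t + 2 / lam ^ 2 * r) (2 / lam ^ 2) r := by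
    have := ((hasDerivAt_id r).const_mul (2 / lam ^ 2)).const_add (lam * s + lam * t)
    simpa using this
  have h2 := (h1.exp).const_mul th
  refine h2.congr_deriv ?_
  ring

lemma sum_bs_le (th lam : ℝ) (hth : 0 < th) (hl : 0 < lam) (s t : ℕ) (r : ℝ) :
    2 * ∑ s' ∈ Finset.range s, ∑ t' ∈ Finset.range t, bs th lam s' t' r
      ≤ 2 / lam ^ 2 * bs th lam s t r := by
  have e : ∀ s' t' : ℕ, bs th lam s' t' r
      = (th * Real.exp (2 / lam ^ 2 * r)) * (Real.exp (lam * s') * Real.exp (lam * t')) := by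
    intro s' t'
    unfold bs
    rw [Real.exp_add, Real.exp_add]; ring
  simp_rw [e, ← Finset.mul_sum]
  rw [← Finset.sum_mul]
  have h1 := sum_exp_le lam hl s
  have h2 := sum_exp_le lam hl t
  have h3 : (∑ s' ∈ Finset.range s, Real.exp (lam * s')) * (∑ t' ∈ Finset.range t, Real.exp (lam * t'))
      ≤ (Real.exp (lam * s) / lam) * (Real.exp (lam * t) / lam) :=
    mul_le_mul h1 h2 (Finset.sum_nonneg fun _ _ => (Real.exp_pos _).le) (by positivity)
  have h4 := mul_le_mul_of_nonneg_left h3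
    (by positivity : 0 ≤ 2 * (th * Real.exp (2 / lam ^ 2 * r)))
  calc 2 * (th * Real.exp (2 / lam ^ 2 * r) * ((∑ s' ∈ Finset.range s, Real.exp (lam * s'))
        * ∑ t' ∈ Finset.range t, Real.exp (lam * t')))
      = 2 * (th * Real.exp (2 / lam ^ 2 * r)) * ((∑ s' ∈ Finset.range s, Real.exp (lam * s'))
        * ∑ t' ∈ Finset.range t, Real.exp (lam * t')) := by ring
    _ ≤ _ := h4
    _ = _ := by field_simp

variable {κ ι W : Type*} [Fintype κ] [DecidableEq κ] [Fintype ι] [DecidableEq ι] [Fintype W]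
variable (P : Pr κ ι W)

lemma Cst_nonneg {r : ℝ} (h0 : 0 ≤ r) (h1 : r ≤ 1) (s t : ℕ) : 0 ≤ Cst P s t r :=
  PE_nonneg h0 h1 fun x y => Finset.sum_nonneg fun k _ =>
    mul_nonneg (pk_nonneg P s k x) (pk_nonneg P t k y)

/-- The position test. -/
def bp (h : List W) (w : W) (k : κ) : ι → ι → ℝ := P.a h w (some k)

lemma bp_contr (h : List W) (u : ι → ℝ) : ∑ k, ∑ w, nsq (mv (bp P h w k) u) ≤ nsq u := by
  rw [← sum_nsq_tot P h u, Fintype.sum_option]
  have h0 : 0 ≤ ∑ w, nsq (mv (P.a h w none) u) := Finset.sum_nonneg fun _ _ => nsq_nonneg _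
  have h1 : ∑ k, ∑ w, nsq (mv (bp P h w k) u) = ∑ k : κ, ∑ w, nsq (mv (P.a h w (some k)) u) := rfl
  linarith

lemma Ft_bp (s t : ℕ) (r : ℝ) : Ft P (bp P) s t r = Cst P s t r := rfl

lemma Cst_zero_le (θ : ℝ) (s t : ℕ) (hs : ∀ k, Ex (pk P s k) ≤ θ) (hθ : 0 ≤ θ) :
    Cst P s t 0 ≤ θ := by
  unfold Cst
  rw [PE_sum]
  have e : ∀ k, PE 0 (fun x y => pk P s k x * pk P t k y) = Ex (pk P s k) * Ex (pk P t k) := by
    intro k
    rw [PE_zero]
    simp_rw [Ex_mul_left]
    rw [Ex_mul_right]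
  simp_rw [e]
  calc ∑ k, Ex (pk P s k) * Ex (pk P t k) ≤ ∑ k, θ * Ex (pk P t k) :=
        Finset.sum_le_sum fun k _ => mul_le_mul_of_nonneg_right (hs k)
          (Ex_nonneg fun x => pk_nonneg P t k x)
    _ = θ * Ex (fun x => ∑ k, pk P t k x) := by rw [← Finset.mul_sum, Ex_sum]
    _ ≤ θ * 1 := mul_le_mul_of_nonneg_left (Ex_le_const fun x => sum_pk_le P t x) hθ
    _ = θ := mul_one θ

/-- Collisions of a light algorithm are rare. -/
theorem Cst_le (th lam : ℝ) (hth : 0 < th) (hl : 0 < lam) (T : ℕ)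
    (hlight : ∀ t < T, ∀ k, Ex (pk P t k) ≤ th ^ 2) :
    ∀ s t : ℕ, s < T → t < T → ∀ r : ℝ, 0 ≤ r → r ≤ 1 → Cst P s t r ≤ bs th lam s t r ^ 2 := by
  intro s
  induction s using Nat.strong_induction_on with
  | _ s ih =>
    intro t hsT htT r hr0 hr1
    refine compare (Cst P s t) (bs th lam s t)
      (fun r => ∑ k, ∑ j, PE r (fun x y => D (tk P (bp P) s k) j x * D (tk P (bp P) t k) j y))
      (fun r => 2 / lam ^ 2 * bs th lam s t r)
      (fun r => Ft_deriv P (bp P) s t r) (fun r => bs_deriv th lam s t r)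
      (fun r => bs_pos th lam hth s t r) ?_ ?_ r hr0 hr1
    · intro r hr0 hr1
      have hb := bs_pos th lam hth s t r
      have hC := Cst_nonneg P hr0 hr1 s t
      refine (deriv_le P (bp P) (bp_contr P) hr0 hr1 s t
        (fun s' t' => bs th lam s t r / bs th lam s' t' r)
        (fun s' t' => div_pos hb (bs_pos th lam hth s' t' r))).trans ?_
      rw [Ft_bp]
      have h1 : ∑ s' ∈ Finset.range s, ∑ t' ∈ Finset.range t,
          (bs th lam s t r / bs th lam s' t' r * Cst P s' t' r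
            + Cst P s t r / (bs th lam s t r / bs th lam s' t' r))
          ≤ ∑ s' ∈ Finset.range s, ∑ t' ∈ Finset.range t,
            bs th lam s' t' r * (bs th lam s t r + Cst P s t r / bs th lam s t r) := by
        refine Finset.sum_le_sum fun s' hs' => Finset.sum_le_sum fun t' ht' => ?_
        rw [Finset.mem_range] at hs' ht'
        have hb' := bs_pos th lam hth s' t' r
        have h2 := ih s' hs' t' (hs'.trans hsT) (ht'.trans htT) r hr0 hr1
        have h3 := mul_le_mul_of_nonneg_left h2 (div_pos hb hb').le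
        have e1 : bs th lam s t r / bs th lam s' t' r * bs th lam s' t' r ^ 2
            = bs th lam s' t' r * bs th lam s t r := by field_simp
        have e2 : Cst P s t r / (bs th lam s t r / bs th lam s' t' r)
            = bs th lam s' t' r * (Cst P s t r / bs th lam s t r) := by field_simp
        rw [e2, mul_add, ← e1]
        linarith
      have h2 : 2 * ∑ s' ∈ Finset.range s, ∑ t' ∈ Finset.range t,
            bs th lam s' t' r * (bs th lam s t r + Cst P s t r / bs th lam s t r)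
          = (2 * ∑ s' ∈ Finset.range s, ∑ t' ∈ Finset.range t, bs th lam s' t' r)
            * (bs th lam s t r + Cst P s t r / bs th lam s t r) := by
        simp_rw [← Finset.sum_mul]
        ring
      have h3 := sum_bs_le th lam hth hl s t r
      have h4 : 0 ≤ bs th lam s t r + Cst P s t r / bs th lam s t r := by positivity
      have h5 := mul_le_mul_of_nonneg_right h3 h4
      linarith
    · refine (Cst_zero_le P (th ^ 2) s t (hlight s hsT) (by positivity)).trans ?_
      unfold bs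
      rw [mul_pow, mul_zero, add_zero]
      have h1 : 1 ≤ Real.exp (lam * s + lam * t) := Real.one_le_exp (by positivity)
      have h2 : 1 ≤ Real.exp (lam * s + lam * t) ^ 2 := one_le_pow₀ h1
      exact le_mul_of_one_le_right (by positivity) h2

/-- The acceptance test. -/
noncomputable def bg (g : List W → ℝ) (h : List W) (_ _ : Unit) : ι → ι → ℝ :=
  fun i j => if i = j then Real.sqrt (g h) else 0

lemma mv_bg (g : List W → ℝ) (h : List W) (w k : Unit) (u : ι → ℝ) :
    mv (bg (ι := ι) g h w k) u = Real.sqrt (g h) • u := by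
  funext i
  simp [mv, bg]

lemma nsq_bg (g : List W → ℝ) (hg0 : ∀ a, 0 ≤ g a) (h : List W) (w k : Unit) (u : ι → ℝ) :
    nsq (mv (bg (ι := ι) g h w k) u) = g h * nsq u := by
  rw [mv_bg, nsq_smul, Real.sq_sqrt (hg0 h)]

lemma bg_contr (g : List W → ℝ) (hg0 : ∀ a, 0 ≤ g a) (hg1 : ∀ a, g a ≤ 1) (h : List W)
    (u : ι → ℝ) : ∑ k, ∑ w, nsq (mv (bg (ι := ι) g h w k) u) ≤ nsq u := by
  simp_rw [nsq_bg g hg0]
  simp only [Finset.univ_unique, Finset.sum_singleton]
  exact mul_le_of_le_one_left (nsq_nonneg u) (hg1 h)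

lemma tk_bg (g : List W → ℝ) (hg0 : ∀ a, 0 ≤ g a) (T : ℕ) (k : Unit) :
    tk P (bg g) T k = P.out T g := by
  funext x
  unfold tk out
  simp_rw [nsq_bg g hg0]
  simp

/-- The light lemma: a light algorithm has a small variance. -/
theorem light (th L : ℝ) (hth : 0 < th) (hL : 0 < L) (T : ℕ) (hLT : L ^ 3 = T)
    (hlight : ∀ t < T, ∀ k, Ex (pk P t k) ≤ th ^ 2)
    (g : List W → ℝ) (hg0 : ∀ a, 0 ≤ g a) (hg1 : ∀ a, g a ≤ 1) :
    Cov (P.out T g) (P.out T g) ≤ 2 * th * Real.exp (4 * L ^ 2) := by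
  set lam : ℝ := 1 / L with hlam
  have hl : 0 < lam := by positivity
  set φ : ℝ → ℝ := Ft P (bg g) T T with hφ
  have hφ1 : ∀ r, 0 ≤ r → r ≤ 1 → φ r ≤ 1 := by
    intro r h0 h1
    rw [hφ]
    unfold Ft
    have : PE r (fun x y => ∑ k, tk P (bg g) T k x * tk P (bg g) T k y) ≤ PE (κ := κ) r (fun _ _ => 1) := by
      refine PE_mono h0 h1 fun x y => ?_
      simp only [Finset.univ_unique, Finset.sum_singleton]
      rw [tk_bg P g hg0]
      exact mul_le_one₀ (P.out_le T g hg1 x) (P.out_nonneg T g hg0 y) (P.out_le T g hg1 y)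
    rwa [PE_const] at this
  have hφ0 : ∀ r, 0 ≤ r → r ≤ 1 → 0 ≤ φ r := fun r h0 h1 => Ft_nonneg P (bg g) h0 h1 T T
  set F : ℝ → ℝ := fun r => φ r - 2 * bs th lam T T r with hF
  have hFd : ∀ r, HasDerivAt F ((∑ k, ∑ j, PE r (fun x y =>
      D (tk P (bg g) T k) j x * D (tk P (bg g) T k) j y)) - 2 * (2 / lam ^ 2 * bs th lam T T r)) r :=
    fun r => (Ft_deriv P (bg g) T T r).sub ((bs_deriv th lam T T r).const_mul 2)
  have hanti : AntitoneOn F (Set.Icc 0 1) := by
    refine antitoneOn_of_deriv_nonpos (convex_Icc 0 1)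
      (fun x _ => (hFd x).continuousAt.continuousWithinAt)
      (fun x _ => (hFd x).differentiableAt.differentiableWithinAt) ?_
    intro r hr
    rw [interior_Icc] at hr
    rw [(hFd r).deriv, sub_nonpos]
    have hr0 := hr.1.le
    have hr1 := hr.2.le
    refine (deriv_le P (bg g) (bg_contr g hg0 hg1) hr0 hr1 T T (fun s' t' => 1 / bs th lam s' t' r)
      (fun s' t' => div_pos one_pos (bs_pos th lam hth s' t' r))).trans ?_
    have h1 : ∑ s' ∈ Finset.range T, ∑ t' ∈ Finset.range T,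
          (1 / bs th lam s' t' r * Cst P s' t' r + Ft P (bg g) T T r / (1 / bs th lam s' t' r))
          ≤ ∑ s' ∈ Finset.range T, ∑ t' ∈ Finset.range T, 2 * bs th lam s' t' r := by
      refine Finset.sum_le_sum fun s' hs' => Finset.sum_le_sum fun t' ht' => ?_
      rw [Finset.mem_range] at hs' ht'
      have hb' := bs_pos th lam hth s' t' r
      have h2 := Cst_le P th lam hth hl T hlight s' t' hs' ht' r hr0 hr1
      have h3 := mul_le_mul_of_nonneg_left h2 (div_pos one_pos hb').le
      have e1 : 1 / bs th lam s' t' r * bs th lam s' t' r ^ 2 = bs th lam s' t' r := by field_simp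
      have e2 : Ft P (bg g) T T r / (1 / bs th lam s' t' r) = φ r * bs th lam s' t' r := by
        field_simp
        rfl
      have h4 := mul_le_mul_of_nonneg_right (hφ1 r hr0 hr1) hb'.le
      rw [e2]
      linarith
    have h2 : ∑ s' ∈ Finset.range T, ∑ t' ∈ Finset.range T, 2 * bs th lam s' t' r
        = 2 * ∑ s' ∈ Finset.range T, ∑ t' ∈ Finset.range T, bs th lam s' t' r := by
      simp_rw [← Finset.mul_sum]
    have h3 := sum_bs_le th lam hth hl T T r
    linarith
  have h1 := hanti (Set.left_mem_Icc.2 zero_le_one) (Set.right_mem_Icc.2 zero_le_one) zero_le_one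
  simp only [hF] at h1
  have hcov : Cov (P.out T g) (P.out T g) = φ 1 - φ 0 := by
    rw [hφ]
    unfold Ft
    simp only [Finset.univ_unique, Finset.sum_singleton]
    rw [tk_bg P g hg0, PE_one, PE_zero]
    unfold Cov
    congr 1
    simp_rw [Ex_mul_left]
    rw [Ex_mul_right]
  have hb0 := bs_pos th lam hth T T 0
  have hb1 : bs th lam T T 1 = th * Real.exp (4 * L ^ 2) := by
    unfold bs
    congr 2
    rw [hlam, ← hLT]
    field_simp
    ring
  rw [hcov]
  rw [hb1] at h1
  linarith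

end Pool.Agent.H703R2.AC
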