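import Pool.Agent.H703R2.AC.Light
import Pool.Agent.H703R2.AB.Osss

/-!
# Influential coordinates and bit fixing from a light lemma
-/

set_option autoImplicit false
set_option linter.unusedSectionVars false

namespace Pool.Agent.H703R2.AC

open Finset Pool.Agent.H722R2.AA Pool.Agent.H746R2.AA Pool.Agent.H703R2.AA Pool.Agent.H703R2.AA.Pr
  Pool.Agent.H703R2.AB

variable {κ ι W : Type*} [Fintype κ] [DecidableEq κ] [Fintype ι] [DecidableEq ι] [Fintype W]
variable (P : Pr κ ι W)

lemma pk_res (k : κ) (s : ℤˣ) (t : ℕ) (l : κ) (x : κ → ℤˣ) :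
    pk (P.res k s) t l x = if l = k then 0 else pk P t l (Function.update x k s) := by
  unfold pk
  simp_rw [qk_res]
  split_ifs with hl
  · exact S_zero_fun t
  · rfl

/-- The mean query probability. -/
noncomputable def mq (t : ℕ) (k : κ) : ℝ := Ex (pk P t k)

lemma mq_nonneg (t : ℕ) (k : κ) : 0 ≤ mq P t k := Ex_nonneg fun x => pk_nonneg P t k x

lemma mq_res (k : κ) (t : ℕ) (l : κ) :
    mq (P.res k 1) t l + mq (P.res k (-1)) t l = if l = k then 0 else 2 * mq P t l := by
  unfold mq
  have e : ∀ s : ℤˣ, Ex (pk (P.res k s) t l)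
      = if l = k then 0 else Ex (fr k s (pk P t l)) := by
    intro s
    split_ifs with hl
    · have : pk (P.res k s) t l = fun _ => 0 := by
        funext x
        rw [pk_res, if_pos hl]
      rw [this]
      exact Ex_const 0
    · refine Ex_congr fun x => ?_
      rw [pk_res, if_neg hl]
      rfl
  rw [e, e]
  split_ifs with hl
  · norm_num
  · rw [Ex_split k (pk P t l)]
    ring

/-- The potential. -/
noncomputable def Po (T : ℕ) : ℝ := ∑ t ∈ Finset.range T, ∑ k, mq P t k

lemma Po_nonneg (T : ℕ) : 0 ≤ Po P T :=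
  Finset.sum_nonneg fun t _ => Finset.sum_nonneg fun k _ => mq_nonneg P t k

lemma sum_mq (t : ℕ) : ∑ k, mq P t k ≤ 1 := by
  unfold mq
  rw [← Ex_sum]
  exact Ex_le_const fun x => sum_pk_le P t x

lemma Po_le (T : ℕ) : Po P T ≤ T := by
  calc Po P T ≤ ∑ _t ∈ Finset.range T, (1 : ℝ) := Finset.sum_le_sum fun t _ => sum_mq P t
    _ = _ := by simp

lemma Po_res (T : ℕ) (k : κ) :
    Po (P.res k 1) T + Po (P.res k (-1)) T
      = 2 * (Po P T - ∑ t ∈ Finset.range T, mq P t k) := by
  unfold Po
  rw [← Finset.sum_add_distrib, ← Finset.sum_sub_distrib, Finset.mul_sum]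
  refine Finset.sum_congr rfl fun t _ => ?_
  rw [← Finset.sum_add_distrib]
  simp_rw [mq_res]
  rw [← Finset.add_sum_erase Finset.univ (fun l : κ => if l = k then (0 : ℝ) else 2 * mq P t l)
      (Finset.mem_univ k), if_pos rfl, zero_add,
    ← Finset.add_sum_erase Finset.univ (fun l : κ => mq P t l) (Finset.mem_univ k),
    add_sub_cancel_left, Finset.mul_sum]
  refine Finset.sum_congr rfl fun l hl => ?_
  rw [if_neg (Finset.ne_of_mem_erase hl)]

lemma pk_dead (t : ℕ) (l : κ) (hl : ∀ h w, P.a h w (some l) = fun _ _ => 0) : mq P t l = 0 := by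
  have : pk P t l = fun _ => 0 := by
    funext x
    unfold pk
    have e : ∀ h, qk P h l x = 0 := by
      intro h
      unfold qk
      refine Finset.sum_eq_zero fun w _ => ?_
      rw [hl h w]
      simp [mv, nsq]
    simp_rw [e]
    exact S_zero_fun t
  unfold mq
  rw [this]
  exact Ex_const 0

/-- The covariance bound. -/
theorem cov_bound (θ : ℝ) (hθ : 0 < θ) (B : ℝ) (T : ℕ)
    (g : List W → ℝ) (hg0 : ∀ a, 0 ≤ g a) (hg1 : ∀ a, g a ≤ 1)
    (hB : ∀ P : Pr κ ι W, (∀ t < T, ∀ k, mq P t k ≤ θ) → Cov (P.out T g) (P.out T g) ≤ B)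
    (h : (κ → ℤˣ) → ℝ) (I : ℝ) (hI : ∀ l, Real.sqrt (Inf h l) ≤ I) (hI0 : 0 ≤ I) :
    ∀ (n : ℕ) (L : Finset κ) (P : Pr κ ι W), Lᶜ.card = n →
      (∀ l ∈ L, ∀ h w, P.a h w (some l) = fun _ _ => 0) →
      |Cov (P.out T g) h| ≤ Real.sqrt B * Real.sqrt (Cov h h)
        + Po P T / (2 * θ) * I := by
  intro n
  induction n with
  | zero =>
    intro L P hn hL
    have hlight := hB P (fun t _ k => by
      have hk : k ∈ L := by
        by_contra hk
        have : k ∈ Lᶜ := Finset.mem_compl.2 hk
        rw [Finset.card_eq_zero.1 hn] at this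
        simp at this
      rw [pk_dead P t k (hL k hk)]
      exact hθ.le)
    have h1 := abs_Cov_le (P.out T g) h
    have h2 : Real.sqrt (Cov (P.out T g) (P.out T g)) * Real.sqrt (Cov h h)
        ≤ Real.sqrt B * Real.sqrt (Cov h h) :=
      mul_le_mul_of_nonneg_right (Real.sqrt_le_sqrt hlight) (Real.sqrt_nonneg _)
    have h3 : 0 ≤ Po P T / (2 * θ) * I :=
      mul_nonneg (div_nonneg (Po_nonneg P T) (by positivity)) hI0
    linarith
  | succ n ih =>
    intro L P hn hL
    by_cases hlt : ∀ t < T, ∀ k, mq P t k ≤ θ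
    · have hlight := hB P hlt
      have h1 := abs_Cov_le (P.out T g) h
      have h2 : Real.sqrt (Cov (P.out T g) (P.out T g)) * Real.sqrt (Cov h h)
          ≤ Real.sqrt B * Real.sqrt (Cov h h) :=
        mul_le_mul_of_nonneg_right (Real.sqrt_le_sqrt hlight) (Real.sqrt_nonneg _)
      have h3 : 0 ≤ Po P T / (2 * θ) * I :=
        mul_nonneg (div_nonneg (Po_nonneg P T) (by positivity)) hI0
      linarith
    · push Not at hlt
      obtain ⟨t, ht, k, hk⟩ := hlt
      have hkL : k ∉ L := by
        intro hkL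
        rw [pk_dead P t k (hL k hkL)] at hk
        linarith
      have hcard : (insert k L)ᶜ.card = n := by
        have h1 := Finset.card_compl_add_card L
        have h2 := Finset.card_compl_add_card (insert k L)
        rw [Finset.card_insert_of_notMem hkL] at h2
        omega
      have hdead : ∀ s : ℤˣ, ∀ l ∈ insert k L, ∀ h w, (P.res k s).a h w (some l) = fun _ _ => 0 := by
        intro s l hl h w
        change P.ra k s h w (some l) = _
        by_cases hlk : l = k
        · subst hlk
          exact P.ra_self l s h w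
        · rw [P.ra_ne k l s h w hlk]
          exact hL l (Finset.mem_of_mem_insert_of_ne hl hlk) h w
      have i1 := ih (insert k L) (P.res k 1) hcard (hdead 1)
      have i2 := ih (insert k L) (P.res k (-1)) hcard (hdead (-1))
      rw [out_res] at i1 i2
      have hsplit := Cov_split (P.out T g) h k
      have hq : |Ex (fun x => sg x k * D (P.out T g) k x * h x)| ≤ 1 / 2 * I := by
        refine (abs_Ex_sg_mul_le k (D (P.out T g) k) h (fun x u => D_update _ k x u)).trans ?_
        refine mul_le_mul ?_ (hI k) (Real.sqrt_nonneg _) (by norm_num)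
        rw [Real.sqrt_le_left (by norm_num)]
        refine Ex_le_const fun x => ?_
        have := abs_D_le (P.out T g) (P.out_nonneg T g hg0) (P.out_le T g hg1) k x
        rw [← sq_abs]
        exact pow_le_pow_left₀ (abs_nonneg _) this 2
      have hPot := Po_res P T k
      have hdk : θ ≤ ∑ t ∈ Finset.range T, mq P t k :=
        hk.le.trans (Finset.single_le_sum (f := fun t => mq P t k)
          (fun t _ => mq_nonneg P t k) (Finset.mem_range.2 ht))
      have hc3 : 0 < 2 * θ := by positivity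
      have hfin : (Po (P.res k 1) T / (2 * θ) * I + Po (P.res k (-1)) T / (2 * θ) * I) / 2
          + 1 / 2 * I ≤ Po P T / (2 * θ) * I := by
        have e : (Po (P.res k 1) T / (2 * θ) * I + Po (P.res k (-1)) T / (2 * θ) * I) / 2
            = (Po P T - ∑ t ∈ Finset.range T, mq P t k) / (2 * θ) * I := by
          have : Po (P.res k 1) T / (2 * θ) * I + Po (P.res k (-1)) T / (2 * θ) * I
              = (Po (P.res k 1) T + Po (P.res k (-1)) T) / (2 * θ) * I := by ring
          rw [this, hPot]; ring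
        rw [e]
        have h5 : (Po P T - ∑ t ∈ Finset.range T, mq P t k) / (2 * θ)
            ≤ Po P T / (2 * θ) - 1 / 2 := by
          rw [div_le_iff₀ hc3, sub_mul, div_mul_cancel₀ _ hc3.ne']
          linarith
        have h6 := mul_le_mul_of_nonneg_right h5 hI0
        linarith
      rw [hsplit]
      calc |(Cov (fr k 1 (P.out T g)) h + Cov (fr k (-1) (P.out T g)) h) / 2
            + Ex (fun x => sg x k * D (P.out T g) k x * h x)|
          ≤ |(Cov (fr k 1 (P.out T g)) h + Cov (fr k (-1) (P.out T g)) h) / 2|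
            + |Ex (fun x => sg x k * D (P.out T g) k x * h x)| := abs_add_le _ _
        _ ≤ (|Cov (fr k 1 (P.out T g)) h| + |Cov (fr k (-1) (P.out T g)) h|) / 2
            + |Ex (fun x => sg x k * D (P.out T g) k x * h x)| := by
            rw [abs_div, abs_of_pos (by norm_num : (0 : ℝ) < 2)]
            have := abs_add_le (Cov (fr k 1 (P.out T g)) h) (Cov (fr k (-1) (P.out T g)) h)
            linarith
        _ ≤ _ := by linarith

/-- Influential coordinates from a light lemma. -/
theorem main (θ : ℝ) (hθ : 0 < θ) (T : ℕ) (hT : 1 ≤ T) (g : List W → ℝ) (hg0 : ∀ a, 0 ≤ g a)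
    (hg1 : ∀ a, g a ≤ 1) (hV : 0 < Cov (P.out T g) (P.out T g))
    (hB : ∀ P' : Pr κ ι W, (∀ t < T, ∀ k, mq P' t k ≤ θ) →
      Cov (P'.out T g) (P'.out T g) ≤ Cov (P.out T g) (P.out T g) / 4) :
    ∃ l, (θ * Cov (P.out T g) (P.out T g) / T) ^ 2 ≤ Inf (P.out T g) l := by
  set f := P.out T g with hf
  set V := Cov f f with hVdef
  have hT0 : (0 : ℝ) < T := by exact_mod_cast hT
  have hsq : Real.sqrt (V / 4) * Real.sqrt V ≤ V / 2 := by
    have e : V / 4 = (Real.sqrt V / 2) ^ 2 := by
      rw [div_pow, Real.sq_sqrt hV.le]; norm_num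
    have h1 : Real.sqrt (V / 4) = Real.sqrt V / 2 := by
      rw [e, Real.sqrt_sq (by positivity)]
    rw [h1, div_mul_eq_mul_div, Real.mul_self_sqrt hV.le]
  have key : ∀ I : ℝ, 0 ≤ I → (∀ l, Real.sqrt (Inf f l) ≤ I) → θ * V / T ≤ I := by
    intro I hI0 hI
    have h1 := cov_bound θ hθ (V / 4) T g hg0 hg1 hB f I hI hI0 (∅ᶜ : Finset κ).card ∅ P
      rfl (by simp)
    rw [← hf, ← hVdef, abs_of_pos hV] at h1
    have h2 := Po_le P T
    have h3 : Po P T / (2 * θ) * I ≤ T / (2 * θ) * I :=
      mul_le_mul_of_nonneg_right (div_le_div_of_nonneg_right h2 (by positivity)) hI0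
    have h4 : V / 2 ≤ T / (2 * θ) * I := by linarith
    rw [div_le_iff₀ hT0]
    have h6 := mul_le_mul_of_nonneg_right h4 (by positivity : 0 ≤ 2 * θ)
    have e2 : (T : ℝ) / (2 * θ) * I * (2 * θ) = I * T := by
      field_simp
    linarith
  rcases isEmpty_or_nonempty κ with hκ | hκ
  · exfalso
    have := key 0 le_rfl (fun l => (IsEmpty.false l).elim)
    have h2 : 0 < θ * V / T := by positivity
    linarith
  · obtain ⟨l, _, hl⟩ := Finset.exists_max_image (Finset.univ : Finset κ) (fun l => Inf f l)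
      Finset.univ_nonempty
    refine ⟨l, ?_⟩
    have h1 := key (Real.sqrt (Inf f l)) (Real.sqrt_nonneg _)
      (fun l' => Real.sqrt_le_sqrt (hl l' (Finset.mem_univ _)))
    calc _ ≤ Real.sqrt (Inf f l) ^ 2 := pow_le_pow_left₀ (by positivity) h1 2
      _ = _ := Real.sq_sqrt (Inf_nonneg f l)

/-- The bit fixing induction. -/
lemma fix_aux (θ : ℝ) (hθ : 0 < θ) (B : ℝ) (hB0 : 0 ≤ B) (T : ℕ)
    (g : List W → ℝ) (hg0 : ∀ a, 0 ≤ g a) (hg1 : ∀ a, g a ≤ 1)
    (hB : ∀ P : Pr κ ι W, (∀ t < T, ∀ k, mq P t k ≤ θ) → Cov (P.out T g) (P.out T g) ≤ B) :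
    ∀ (n : ℕ) (P : Pr κ ι W) (u : ℝ), ∃ (S : Finset κ) (a : κ → ℤˣ), S.card ≤ n ∧
      Ex (fun x => (P.out T g x - u) ^ 2) - B - Po P T / ((n + 1) * θ)
        ≤ (Ex (fun x => P.out T g (S.piecewise a x)) - u) ^ 2 := by
  have hCov1 : ∀ P : Pr κ ι W, Cov (P.out T g) (P.out T g) ≤ 1 := by
    intro P
    have := Cov_self_le (P.out T g) 1 (fun x => by
      rw [abs_of_nonneg (P.out_nonneg T g hg0 x)]; exact P.out_le T g hg1 x)
    linarith
  intro n
  induction n with
  | zero =>
    intro P u
    refine ⟨∅, 1, by simp, ?_⟩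
    simp only [Finset.piecewise_empty, Nat.cast_zero, zero_add, one_mul]
    rw [Ex_sq_sub, show Ex (fun x => P.out T g x) = Ex (P.out T g) from rfl]
    have hP := Po_nonneg P T
    by_cases hlt : ∀ t < T, ∀ k, mq P t k ≤ θ
    · have hlight := hB P hlt
      have : 0 ≤ Po P T / θ := by positivity
      linarith
    · push Not at hlt
      obtain ⟨t, ht, k, hk⟩ := hlt
      have h1 : θ ≤ Po P T := by
        refine hk.le.trans ?_
        unfold Po
        calc mq P t k ≤ ∑ k, mq P t k :=
              Finset.single_le_sum (f := fun k => mq P t k) (fun k _ => mq_nonneg P t k)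
                (Finset.mem_univ k)
          _ ≤ _ := Finset.single_le_sum (f := fun t => ∑ k, mq P t k)
                (fun t _ => Finset.sum_nonneg fun k _ => mq_nonneg P t k)
                (Finset.mem_range.2 ht)
      have h2 : 1 ≤ Po P T / θ := by rw [le_div_iff₀ hθ]; linarith
      have h3 := hCov1 P
      linarith
  | succ n ih =>
    intro P u
    have hP := Po_nonneg P T
    have hstop : Cov (P.out T g) (P.out T g)
        ≤ B + Po P T / (((n + 1 : ℕ) : ℝ) + 1) / θ →
        ∃ (S : Finset κ) (a : κ → ℤˣ), S.card ≤ n + 1 ∧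
          Ex (fun x => (P.out T g x - u) ^ 2) - B
            - Po P T / ((((n + 1 : ℕ) : ℝ) + 1) * θ)
          ≤ (Ex (fun x => P.out T g (S.piecewise a x)) - u) ^ 2 := by
      intro h
      refine ⟨∅, 1, by simp, ?_⟩
      simp only [Finset.piecewise_empty]
      rw [Ex_sq_sub, show Ex (fun x => P.out T g x) = Ex (P.out T g) from rfl, ← div_div]
      linarith
    by_cases hlt : ∀ t < T, ∀ k, mq P t k ≤ θ
    · have hlight := hB P hlt
      refine hstop ?_
      have : 0 ≤ Po P T / (((n + 1 : ℕ) : ℝ) + 1) / θ := by positivity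
      linarith
    · rcases le_or_gt (Po P T) ((((n + 1 : ℕ) : ℝ) + 1) * θ) with hle | hgt
      · push Not at hlt
        obtain ⟨t, ht, l, hk⟩ := hlt
        obtain ⟨S1, a1, hc1, h1⟩ := ih (P.res l 1) u
        obtain ⟨S2, a2, hc2, h2⟩ := ih (P.res l (-1)) u
        rw [out_res] at h1 h2
        have hsplit : Ex (fun x => (P.out T g x - u) ^ 2)
            = (Ex (fun x => (fr l 1 (P.out T g) x - u) ^ 2)
              + Ex (fun x => (fr l (-1) (P.out T g) x - u) ^ 2)) / 2 :=
          Ex_split l (fun x => (P.out T g x - u) ^ 2)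
        have hPot := Po_res P T l
        have hdk : θ ≤ ∑ t ∈ Finset.range T, mq P t l :=
          hk.le.trans (Finset.single_le_sum (f := fun t => mq P t l)
            (fun t _ => mq_nonneg P t l) (Finset.mem_range.2 ht))
        have hn1 : (0 : ℝ) < ((n : ℝ) + 1) * θ := by positivity
        have hn2 : (0 : ℝ) < (((n + 1 : ℕ) : ℝ) + 1) * θ := by positivity
        have hnum : (Po P T - ∑ t ∈ Finset.range T, mq P t l) / (((n : ℝ) + 1) * θ)
            ≤ Po P T / ((((n + 1 : ℕ) : ℝ) + 1) * θ) := by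
          rw [div_le_div_iff₀ hn1 hn2]
          push_cast at hle ⊢
          have h3 : (Po P T - ∑ t ∈ Finset.range T, mq P t l) * (((n : ℝ) + 1 + 1) * θ)
              ≤ (Po P T - θ) * (((n : ℝ) + 1 + 1) * θ) := by
            refine mul_le_mul_of_nonneg_right (by linarith) (by positivity)
          nlinarith
        have key : ∀ b : ℤˣ, ∀ (S : Finset κ) (a : κ → ℤˣ), S.card ≤ n →
            ∃ (S' : Finset κ) (a' : κ → ℤˣ), S'.card ≤ n + 1 ∧
              Ex (fun x => fr l b (P.out T g) (S.piecewise a x))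
                = Ex (fun x => P.out T g (S'.piecewise a' x)) := by
          intro b S a hc
          refine ⟨insert l S, Function.update a l b, (Finset.card_insert_le _ _).trans (by omega), ?_⟩
          refine Ex_congr fun x => ?_
          unfold fr
          congr 1
          funext i
          by_cases hi : i = l
          · subst hi
            rw [Function.update_self, Finset.piecewise_eq_of_mem _ _ _ (Finset.mem_insert_self _ _),
              Function.update_self]
          · rw [Function.update_of_ne hi]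
            by_cases hiS : i ∈ S
            · rw [Finset.piecewise_eq_of_mem _ _ _ hiS,
                Finset.piecewise_eq_of_mem _ _ _ (Finset.mem_insert_of_mem hiS),
                Function.update_of_ne hi]
            · rw [Finset.piecewise_eq_of_notMem _ _ _ hiS, Finset.piecewise_eq_of_notMem]
              simp [hi, hiS]
        obtain ⟨S1', a1', hc1', e1⟩ := key 1 S1 a1 hc1
        obtain ⟨S2', a2', hc2', e2⟩ := key (-1) S2 a2 hc2
        rw [e1] at h1
        rw [e2] at h2
        have havg : (Po (P.res l 1) T / (((n : ℝ) + 1) * θ)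
            + Po (P.res l (-1)) T / (((n : ℝ) + 1) * θ)) / 2
            = (Po P T - ∑ t ∈ Finset.range T, mq P t l) / (((n : ℝ) + 1) * θ) := by
          rw [← add_div, hPot]; ring
        by_cases hcmp : (Ex (fun x => P.out T g (S2'.piecewise a2' x)) - u) ^ 2 ≤
            (Ex (fun x => P.out T g (S1'.piecewise a1' x)) - u) ^ 2
        · refine ⟨S1', a1', hc1', ?_⟩
          linarith
        · refine ⟨S2', a2', hc2', ?_⟩
          push Not at hcmp
          linarith
      · refine hstop ?_
        have h1 : 1 ≤ Po P T / (((n + 1 : ℕ) : ℝ) + 1) / θ := by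
          rw [div_div, le_div_iff₀ (by positivity)]
          linarith
        have h3 := hCov1 P
        linarith

/-- Bit fixing from a light lemma. -/
theorem fix (θ : ℝ) (hθ : 0 < θ) (T : ℕ) (hT : 1 ≤ T) (g : List W → ℝ) (hg0 : ∀ a, 0 ≤ g a)
    (hg1 : ∀ a, g a ≤ 1) (hV : 0 < Cov (P.out T g) (P.out T g))
    (hB : ∀ P' : Pr κ ι W, (∀ t < T, ∀ k, mq P' t k ≤ θ) →
      Cov (P'.out T g) (P'.out T g) ≤ Cov (P.out T g) (P.out T g) / 4) :
    ∃ (S : Finset κ) (a : κ → ℤˣ),
      (S.card : ℝ) ≤ 4 * T / (θ * Cov (P.out T g) (P.out T g)) ∧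
      Cov (P.out T g) (P.out T g) / 2
        ≤ (Ex (fun x => P.out T g (S.piecewise a x)) - Ex (P.out T g)) ^ 2 := by
  set f := P.out T g with hf
  set V := Cov f f with hVdef
  have hT0 : (0 : ℝ) < T := by exact_mod_cast hT
  set N : ℕ := ⌊4 * T / (θ * V)⌋₊ with hN
  obtain ⟨S, a, hS, h⟩ := fix_aux θ hθ (V / 4) (by positivity) T g hg0 hg1 hB N P (Ex f)
  refine ⟨S, a, ?_, ?_⟩
  · have h1 : (N : ℝ) ≤ 4 * T / (θ * V) := Nat.floor_le (by positivity)
    calc (S.card : ℝ) ≤ N := by exact_mod_cast hS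
      _ ≤ _ := h1
  · rw [← hf, Ex_sq_sub, sub_self, zero_pow (by norm_num), add_zero, ← hVdef] at h
    have h2 := Po_le P T
    have h3 : 4 * T / (θ * V) < (N : ℝ) + 1 := Nat.lt_floor_add_one _
    have h4 : Po P T / (((N : ℝ) + 1) * θ) ≤ V / 4 := by
      rw [div_le_iff₀ (by positivity)]
      rw [div_lt_iff₀ (by positivity)] at h3
      nlinarith
    linarith

end Pool.Agent.H703R2.AC
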